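import Pool.Agent.MP_3ee8cb_gt.DRB.Spec

/-! A dual certificate for the inequality behind the inward direction. -/

namespace Pool.Agent.MP_3ee8cb_gt.DRC

open Real

/-- The cubic Taylor polynomial of `exp (-z)`. -/
noncomputable def q (z : ℝ) : ℝ := 1 - z + z ^ 2 / 2 - z ^ 3 / 6

theorem q_le (z : ℝ) : q z ≤ exp (-z) := by
  have d : ∀ u : ℝ, HasDerivAt (fun u => (1 + u + u ^ 2 / 2 + u ^ 3 / 6) * exp (-u))
      (-(u ^ 3 / 6) * exp (-u)) u := fun u =>
    (((((hasDerivAt_id u).const_add 1).add ((hasDerivAt_pow 2 u).div_const 2)).add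
      ((hasDerivAt_pow 3 u).div_const 6)).mul (hasDerivAt_neg u).exp).congr_deriv (by
        simp only [id, Pi.add_apply]
        norm_num
        ring)
  have k : (1 + -z + (-z) ^ 2 / 2 + (-z) ^ 3 / 6) * exp (- -z) ≤
      (1 + 0 + 0 ^ 2 / 2 + 0 ^ 3 / 6) * exp (-0) := by
    have c : Continuous fun u : ℝ => (1 + u + u ^ 2 / 2 + u ^ 3 / 6) * exp (-u) := by fun_prop
    rcases le_total 0 (-z) with h | h
    · refine antitoneOn_of_deriv_nonpos (convex_Ici 0) c.continuousOn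
        (fun u _ => (d u).differentiableAt.differentiableWithinAt) (fun u hu => ?_)
        Set.self_mem_Ici h h
      rw [interior_Ici] at hu
      rw [(d u).deriv]
      have := mul_pos (pow_pos (Set.mem_Ioi.1 hu) 3) (exp_pos (-u))
      linarith
    · refine monotoneOn_of_deriv_nonneg (convex_Iic 0) c.continuousOn
        (fun u _ => (d u).differentiableAt.differentiableWithinAt) (fun u hu => ?_)
        h Set.self_mem_Iic h
      rw [interior_Iic] at hu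
      rw [(d u).deriv]
      have := mul_pos (pow_pos (neg_pos.2 (Set.mem_Iio.1 hu)) 3) (exp_pos (-u))
      linarith
  have e : exp (- -z) * exp (-z) = 1 := by rw [← exp_add]; simp
  have p := exp_pos (-z)
  simp only [neg_zero, exp_zero] at k
  unfold q
  nlinarith [mul_le_mul_of_nonneg_right k p.le]

/-- The certificate at one point. -/
def Ct (σ φ Q x d : ℝ) : Prop := 0 ≤ Q - 1 + d ∧ 0 ≤ φ * (x + σ) * (Q - 1 + d) / 2 - d * σ ∧
  0 ≤ φ * (x + σ) * (Q - 1 + d) * ((2 - d) * x - d * σ) - 4 * x ^ 2 * (1 - d) -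
    d ^ 2 * (1 - σ ^ 2)

theorem key {σ F a μ : ℝ} (hσ : 0 ≤ σ) (hF : 0 < F)
    (h : ∀ x, 0 < x → x ≤ 1 → ∃ d, 0 ≤ d ∧ d ≤ 1 ∧ Ct σ (F ^ 2) (q (a * (x ^ 2 - μ))) x d) :
    DRB.Nu2 σ F a μ := by
  intro x S B f U x0 x1 hS hB f0 g1 g2 g3 g4
  obtain ⟨d, d0, d1, c1, c2, c3⟩ := h x x0 x1
  have qe := q_le (a * (x ^ 2 - μ))
  generalize q (a * (x ^ 2 - μ)) = Q at *
  generalize a * (x ^ 2 - μ) = z at *
  obtain ⟨m, hm⟩ : ∃ m, m = F ^ 2 * (x + σ) * (Q - 1 + d) / 2 := ⟨_, rfl⟩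
  have c3' : 0 ≤ 2 * m * ((2 - d) * x - d * σ) - 4 * x ^ 2 * (1 - d) - d ^ 2 * (1 - σ ^ 2) := by
    rw [hm]; linarith
  rw [← hm] at c2
  have y1 : 0 ≤ 1 - x ^ 2 := by nlinarith
  have r2 : √(1 - S ^ 2) ^ 2 = 1 - S ^ 2 := sq_sqrt (by linarith)
  have k2 : √(1 - x ^ 2) ^ 2 = 1 - x ^ 2 := sq_sqrt y1
  have b1 : B ≤ √(1 - S ^ 2) * √(1 - x ^ 2) :=
    le_of_sq_le_sq (by rw [mul_pow, r2, k2]; exact hB) (by positivity)
  generalize √(1 - S ^ 2) = r at *
  generalize √(1 - x ^ 2) = c at *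
  have b2 : (m - (2 - d) * x) * S + d * c * r ≤ m - d * σ := by
    refine le_of_sq_le_sq ?_ c2
    have e1 : ((m - (2 - d) * x) * S + d * c * r) ^ 2 + ((m - (2 - d) * x) * r - d * c * S) ^ 2 =
        ((m - (2 - d) * x) ^ 2 + d ^ 2 * c ^ 2) * (S ^ 2 + r ^ 2) := by ring
    rw [r2, k2] at e1
    nlinarith [sq_nonneg ((m - (2 - d) * x) * r - d * c * S)]
  have b3 : B - S * x + σ ≤ m * (1 - S) + (1 - d) * (B + S * x + σ) := by
    nlinarith [mul_le_mul_of_nonneg_left b1 d0]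
  have xs : 0 < F * (x + σ) := by positivity
  have b4 : f * (m * (1 - S)) ≤ (Q - 1 + d) * U := by
    have e : f * (m * (1 - S)) = (Q - 1 + d) * (F * (x + σ) * (F * f * (1 - S)) / 2) := by
      rw [hm]; ring
    rw [e]
    refine mul_le_mul_of_nonneg_left ?_ c1
    nlinarith [mul_le_mul_of_nonneg_left g1 xs.le]
  have U0 : 0 < U := xs.trans_le g2
  have b5 : f * (B - S * x + σ) ≤ exp (-z) * U := by
    nlinarith [mul_le_mul_of_nonneg_left b3 f0.le, mul_le_mul_of_nonneg_left g3 (sub_nonneg.2 d1),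
      mul_le_mul_of_nonneg_right qe U0.le]
  have b6 := log_le_log (mul_pos f0 g4) b5
  rw [log_mul (exp_pos _).ne' U0.ne', log_exp] at b6
  linarith

end Pool.Agent.MP_3ee8cb_gt.DRC
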